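import Pool.Agent.Helper9.SR.Langs

/-!
# Sums of square roots with small square classes are in P/poly

Polynomial time is the one of the prelude (Mathlib's `TM2ComputableInPolyTime`), instances are
encoded with the binary encodings of the prelude.
-/

set_option autoImplicit false

namespace Pool.Agent.Results.MP_7d70ae_lc.SmallSquareClasses

open Pool.Agent.Helper73.ETSP Pool.Agent.Helper9.SR

/-- For all `t` and `c`, the sum of square roots problem with signs, restricted to the instances in
which all but at most `t` of the radicands are squares times numbers bounded by the `c`-th power of
the input length, is in P/poly. -/
theorem result (t c : ℕ) : lang (SSPb t c) ∈ PPoly := ssp_ppoly t c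

end Pool.Agent.Results.MP_7d70ae_lc.SmallSquareClasses
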