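import Pool.Agent.Helper73.Gap.Main

/-!
# Sums of square roots very close to integers

For fixed `k`, sums of `k` square roots of positive integers up to `n` which are not integers can
be as close as `C n^(1/2 - ⌊2(k+1)/3⌋)` to an integer.  These are instances of the sum of square
roots problem which need at least that much precision.
-/

set_option autoImplicit false

namespace Pool.Agent.Results.MP_7d70ae_lc.SquareRootGap

open Pool.Agent.Helper73.Gap

/-- For every `k ≥ 1` there are `C > 0` and `n₀` such that for all `n ≥ n₀` there are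
`a₁, ..., aₖ` in `{1, ..., n}` and an integer `m` with
`0 < |√a₁ + ... + √aₖ - m| ≤ C n^(1/2 - ⌊2(k+1)/3⌋)`; for `k = 3` the exponent can be taken to be
`-5/2` and for `k = 4` it can be taken to be `-7/2`. -/
theorem result :
    (∀ k : ℕ, 1 ≤ k → GapBound k (((2 * (k + 1) / 3 : ℕ) : ℝ) - 1 / 2)) ∧
      GapBound 3 (5 / 2) ∧ GapBound 4 (7 / 2) :=
  ⟨gap_all, gap_three, gap_four⟩

end Pool.Agent.Results.MP_7d70ae_lc.SquareRootGap
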