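import Pool.Agent.Helper9.SR.Langs

/-!
# The Euclidean travelling salesman problem with small coordinates is in NP/poly

Polynomial time is the one of the prelude (Mathlib's `TM2ComputableInPolyTime`), instances are
encoded with the binary encodings of the prelude.
-/

set_option autoImplicit false

namespace Pool.Agent.Results.MP_7d70ae_lc.TourAdvice

open Pool.Agent.Helper73.ETSP Pool.Agent.Helper9.SR

/-- For all `t` and `c`, the Euclidean travelling salesman problem (in all dimensions), restricted
to the instances in which all but at most `t` of the points have coordinates bounded by the `c`-th
power of the input length, is in NP/poly. -/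
theorem result (t c : ℕ) : lang (ETSPb t c) ∈ NPPoly := tsp_nppoly t c

end Pool.Agent.Results.MP_7d70ae_lc.TourAdvice
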