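import Pool.Agent.Helper73.ETSP.Corr

/-!
# The Euclidean travelling salesman problem is in NP if and only if the sum of square roots
problem is in NP

The class NP is the one of the prelude (verifiers computed by Turing machines in polynomial time,
Mathlib's `TM2ComputableInPolyTime`), instances are encoded with the binary encodings of the
prelude.
-/

set_option autoImplicit false

namespace Pool.Agent.Results.MP_7d70ae_lc.TourEquivalence

open Pool.Agent.Helper73.ETSP

/-- For every dimension `d ≥ 2` the Euclidean travelling salesman problem for points with integer
coordinates in dimension `d` is in NP if and only if the sum of square roots problem is in NP,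
where for `d ≤ 3` the latter is restricted to entries which are sums of `d` squares. -/
theorem result (d : ℕ) (hd : 2 ≤ d) :
    lang (ETSP d) ∈ N68a2faeb.NP ↔ lang (SSPr d) ∈ N68a2faeb.NP := by
  rw [SSPr_eq]
  exact main d hd

end Pool.Agent.Results.MP_7d70ae_lc.TourEquivalence
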